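import Pool.Agent.Results.MP_8b2777_lc.NonPrimePowerDisproof

/-!
Rational approximations of `N`-adic integers: basic facts.
-/

set_option autoImplicit false

namespace Pool.Agent.W907.NAdic

open Finset
open Pool.Agent.Results.MP_8b2777_lc.NonPrimePowerDisproof

/-- the pair `(u, g)` reproduces the residue `V` modulo `N^n` -/
def Cd (N n : ℕ) (V u g : ℤ) : Prop := IsCoprime g (N : ℤ) ∧ (N : ℤ) ^ n ∣ g * V - u

/-- the norm of a pair -/
def nm (u g : ℤ) : ℕ := max u.natAbs g.natAbs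

/-- the minimal norm of a pair which reproduces the residue `V` modulo `N^n` -/
noncomputable def mc (N n : ℕ) (V : ℤ) : ℕ := sInf {x | ∃ u g, Cd N n V u g ∧ x = nm u g}

theorem cd_one (N n : ℕ) (V : ℤ) : Cd N n V V 1 := ⟨isCoprime_one_left, by simp⟩

theorem mc_mem (N n : ℕ) (V : ℤ) : ∃ u g, Cd N n V u g ∧ mc N n V = nm u g :=
  Nat.sInf_mem (s := {x | ∃ u g, Cd N n V u g ∧ x = nm u g}) ⟨nm V 1, V, 1, cd_one N n V, rfl⟩

theorem mc_le {N n : ℕ} {V u g : ℤ} (h : Cd N n V u g) : mc N n V ≤ nm u g :=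
  Nat.sInf_le ⟨u, g, h, rfl⟩

theorem Cd.ne {N n : ℕ} {V u g : ℤ} (hN : 2 ≤ N) (h : Cd N n V u g) : g ≠ 0 := by
  rintro rfl
  have h1 := h.1
  rw [isCoprime_zero_left] at h1
  have := Int.isUnit_iff.1 h1
  omega

theorem mc_pos {N : ℕ} (hN : 2 ≤ N) (n : ℕ) (V : ℤ) : 1 ≤ mc N n V := by
  obtain ⟨u, g, h, he⟩ := mc_mem N n V
  have := h.ne hN
  rw [he, nm]
  have : 1 ≤ g.natAbs := by omega
  omega

theorem Cd.down {N n n' : ℕ} {V V' u g : ℤ} (h : Cd N n' V' u g) (hn : n ≤ n')
    (hV : (N : ℤ) ^ n ∣ V' - V) : Cd N n V u g := by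
  refine ⟨h.1, ?_⟩
  have h1 := (pow_dvd_pow (N : ℤ) hn).trans h.2
  have h2 := dvd_sub h1 (Dvd.dvd.mul_left hV g)
  rwa [show g * V' - u - g * (V' - V) = g * V - u by ring] at h2

theorem mc_mono {N n n' : ℕ} {V V' : ℤ} (hn : n ≤ n') (hV : (N : ℤ) ^ n ∣ V' - V) :
    mc N n V ≤ mc N n' V' := by
  obtain ⟨u, g, h, he⟩ := mc_mem N n' V'
  rw [he]
  exact mc_le (h.down hn hV)

theorem mc_congr {N n : ℕ} {V V' : ℤ} (hV : (N : ℤ) ^ n ∣ V' - V) : mc N n V = mc N n V' :=
  le_antisymm (mc_mono le_rfl hV) (mc_mono le_rfl (by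
    have := (dvd_neg.2 hV)
    rwa [neg_sub] at this))

/-- the prefix values are coherent -/
theorem pv_dvd (N : ℕ) (a : ℕ → Fin N) {n m : ℕ} (h : n ≤ m) :
    (N : ℤ) ^ n ∣ prefixValue N a m - prefixValue N a n := by
  obtain ⟨k, rfl⟩ := Nat.exists_eq_add_of_le h
  exact prefixValue_mod N a n k

/-- Existence of an eventually periodic sequence with given fraction and first digits. -/
theorem exists_b {N : ℕ} (hN : 2 ≤ N) (a : ℕ → Fin N) (n : ℕ) (u g : ℤ) (hug : IsCoprime u g)
    (h0 : Cd N n (prefixValue N a n) u g) :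
    ∃ b : ℕ → Fin N, EventuallyPeriodic b ∧ (∀ i, i < n → b i = a i) ∧ IsFraction N b u g := by
  have hN0 : 0 < N := by omega
  have hg0 := h0.ne hN
  obtain ⟨hgN, hdivn⟩ := h0
  have hdivn : (N : ℤ) ^ n ∣ u - g * prefixValue N a n := by
    have := dvd_neg.2 hdivn
    rwa [neg_sub] at this
  obtain ⟨c, hc⟩ := hdivn
  obtain ⟨h, h', hh⟩ := hgN
  have hgh : (N : ℤ) ∣ g * h - 1 := ⟨-h', by linear_combination hh⟩
  let d := digits N hN0 g h c
  let b : ℕ → Fin N := fun i => if i < n then a i else d (i - n)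
  have hbn : ∀ i, i < n → b i = a i := fun i hi => by simp [b, hi]
  have hbn' : ∀ k, b (n + k) = d k := fun k => by simp [b]
  have hvaln : prefixValue N b n = prefixValue N a n := by
    apply Finset.sum_congr rfl
    intro i hi
    rw [hbn i (Finset.mem_range.1 hi)]
  have hval : ∀ k, prefixValue N b (n + k) = prefixValue N a n +
      (N : ℤ) ^ n * prefixValue N d k := by
    intro k
    induction k with
    | zero =>
      have h0 : prefixValue N d 0 = 0 := by simp [prefixValue]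
      rw [Nat.add_zero, hvaln, h0, mul_zero, add_zero]
    | succ k ih =>
      rw [← add_assoc, prefixValue_succ, ih, prefixValue_succ, hbn' k, pow_add]
      ring
  refine ⟨b, ?_, hbn, ⟨hg0, hug, ⟨h, h', hh⟩, ?_⟩⟩
  · obtain ⟨m, p, hp, hper⟩ := digits_eventuallyPeriodic N hN hN0 g h c hgh
    refine ⟨n + m, p, hp, ?_⟩
    intro i hi
    obtain ⟨k, rfl⟩ : ∃ k, i = n + k := ⟨i - n, by omega⟩
    rw [add_assoc, hbn', hbn']
    exact hper k (by omega)
  · intro k
    have hmain : ∀ k, (N : ℤ) ^ (n + k) ∣ g * prefixValue N b (n + k) - u := by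
      intro k
      have h1 := digits_spec N hN0 g h c hgh k
      refine ⟨- carry N g h c k, ?_⟩
      rw [hval k, pow_add]
      have h2 : u = g * prefixValue N a n + (N : ℤ) ^ n * c := by
        linear_combination hc
      rw [h2]
      have h3 : c - g * prefixValue N d k = (N : ℤ) ^ k * carry N g h c k := by
        linear_combination h1
      linear_combination (-(N : ℤ) ^ n) * h3
    have h1 := (pow_dvd_pow (N : ℤ) (Nat.le_add_left k n)).trans (hmain k)
    have h2 := prefixValue_mod N b k n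
    rw [add_comm k n] at h2
    have h3 := dvd_sub h1 (Dvd.dvd.mul_left h2 g)
    rw [show g * prefixValue N b (n + k) - u - g * (prefixValue N b (n + k) -
      prefixValue N b k) = g * prefixValue N b k - u by ring] at h3
    exact h3

/-- Reduction to lowest terms. -/
theorem Cd.lowest {N n : ℕ} {V u g : ℤ} (hN : 2 ≤ N) (h : Cd N n V u g) :
    ∃ u' g', IsCoprime u' g' ∧ Cd N n V u' g' ∧ nm u' g' ≤ nm u g := by
  have hg := h.ne hN
  set d : ℤ := (Int.gcd u g : ℤ) with hd
  have hdpos : 0 < Int.gcd u g := Int.gcd_pos_of_ne_zero_right _ hg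
  obtain ⟨u', hu'⟩ : d ∣ u := Int.gcd_dvd_left ..
  obtain ⟨g', hg'⟩ : d ∣ g := Int.gcd_dvd_right ..
  have hd0 : d ≠ 0 := by
    rw [hd]; exact_mod_cast hdpos.ne'
  have hcop : IsCoprime u' g' := by
    obtain ⟨x, y, hxy⟩ : ∃ x y : ℤ, x * u + y * g = d := by
      refine ⟨Int.gcdA u g, Int.gcdB u g, ?_⟩
      have := Int.gcd_eq_gcd_ab u g
      rw [hd, this]; ring
    refine ⟨x, y, ?_⟩
    have h1 : d * (x * u' + y * g') = d * 1 := by
      rw [hu', hg'] at hxy
      linear_combination hxy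
    exact mul_left_cancel₀ hd0 h1
  obtain ⟨hgN, hdv⟩ := h
  rw [hg'] at hgN
  have hdN : IsCoprime d (N : ℤ) := hgN.of_mul_left_left
  have hgN' : IsCoprime g' (N : ℤ) := hgN.of_mul_left_right
  refine ⟨u', g', hcop, ⟨hgN', ?_⟩, ?_⟩
  · have h1 : (N : ℤ) ^ n ∣ d * (g' * V - u') := by
      rw [show d * (g' * V - u') = (d * g') * V - d * u' by ring, ← hg', ← hu']
      exact hdv
    have h2 : IsCoprime ((N : ℤ) ^ n) d := hdN.symm.pow_left
    exact h2.dvd_of_dvd_mul_left h1
  · have hda : 1 ≤ d.natAbs := by omega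
    have h1 : u'.natAbs ≤ u.natAbs := by
      rw [hu', Int.natAbs_mul]; exact Nat.le_mul_of_pos_left _ hda
    have h2 : g'.natAbs ≤ g.natAbs := by
      rw [hg', Int.natAbs_mul]; exact Nat.le_mul_of_pos_left _ hda
    exact max_le_max h1 h2

theorem nm_cast (u g : ℤ) : ((max |u| |g| : ℤ) : ℝ) = (nm u g : ℝ) := by
  have : (max |u| |g| : ℤ) = ((nm u g : ℕ) : ℤ) := by
    rw [nm, Nat.cast_max, Int.natCast_natAbs, Int.natCast_natAbs]
  rw [this]
  simp

/-- The prefix complexity is the logarithm of the minimal norm. -/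
theorem prefixComplexity_eq_mc {N : ℕ} (hN : 2 ≤ N) (a : ℕ → Fin N) (n : ℕ) :
    prefixComplexity N a n = Real.logb N (mc N n (prefixValue N a n)) := by
  have hN1 : (1 : ℝ) < (N : ℝ) := by exact_mod_cast (by omega : 1 < N)
  have hleast : IsLeast {x : ℝ | ∃ (b : ℕ → Fin N) (u g : ℤ), EventuallyPeriodic b ∧
      (∀ i, i < n → b i = a i) ∧ IsFraction N b u g ∧
      x = Real.logb N (max |u| |g| : ℤ)} (Real.logb N (mc N n (prefixValue N a n))) := by
    constructor
    · obtain ⟨u, g, h, he⟩ := mc_mem N n (prefixValue N a n)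
      obtain ⟨u', g', h1, h2, h3⟩ := h.lowest hN
      have h4 : mc N n (prefixValue N a n) = nm u' g' :=
        le_antisymm (mc_le h2) (by rw [he]; exact h3)
      obtain ⟨b, hb1, hb2, hb3⟩ := exists_b hN a n u' g' h1 h2
      refine ⟨b, u', g', hb1, hb2, hb3, ?_⟩
      rw [nm_cast, h4]
    · rintro x ⟨b, u, g, hb1, hb2, ⟨hg0, hug, hgN, hdiv⟩, rfl⟩
      rw [nm_cast]
      have hval : prefixValue N b n = prefixValue N a n := by
        apply Finset.sum_congr rfl
        intro i hi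
        rw [hb2 i (Finset.mem_range.1 hi)]
      have h1 := hdiv n
      rw [hval] at h1
      apply Real.logb_le_logb_of_le hN1
      · have := mc_pos hN n (prefixValue N a n)
        exact_mod_cast this
      · exact_mod_cast mc_le (⟨hgN, h1⟩ : Cd N n (prefixValue N a n) u g)
  exact hleast.csInf_eq

/-- Two different approximations of the same residue have large norms. -/
theorem cross {N n : ℕ} {V u g u' g' : ℤ} (h : Cd N n V u g) (h' : Cd N n V u' g')
    (hne : u * g' ≠ u' * g) : N ^ n ≤ 2 * (nm u g * nm u' g') := by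
  have h1 : (N : ℤ) ^ n ∣ u * g' - u' * g := by
    have h2 := dvd_sub (Dvd.dvd.mul_left h'.2 g) (Dvd.dvd.mul_left h.2 g')
    rwa [show g * (g' * V - u') - g' * (g * V - u) = u * g' - u' * g by ring] at h2
  have h2 : N ^ n ≤ (u * g' - u' * g).natAbs := by
    have h3 : (u * g' - u' * g) ≠ 0 := sub_ne_zero.2 hne
    have h4 := Int.natAbs_dvd_natAbs.2 h1
    rw [Int.natAbs_pow, Int.natAbs_natCast] at h4
    exact Nat.le_of_dvd (Int.natAbs_pos.2 h3) h4
  have h3 : (u * g' - u' * g).natAbs ≤ u.natAbs * g'.natAbs + u'.natAbs * g.natAbs := by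
    have := Int.natAbs_sub_le (u * g') (u' * g)
    rwa [Int.natAbs_mul, Int.natAbs_mul] at this
  have h4 : u.natAbs * g'.natAbs ≤ nm u g * nm u' g' :=
    Nat.mul_le_mul (le_max_left _ _) (le_max_right _ _)
  have h5 : u'.natAbs * g.natAbs ≤ nm u g * nm u' g' := by
    rw [mul_comm]
    exact Nat.mul_le_mul (le_max_right _ _) (le_max_left _ _)
  omega

/-- If two approximations are proportional then one reproduces as many digits as the other. -/
theorem Cd.trans {N n m : ℕ} {V u g u' g' : ℤ} (h : Cd N n V u g) (h' : Cd N m V u' g')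
    (he : u * g' = u' * g) : Cd N m V u g := by
  refine ⟨h.1, ?_⟩
  have h1 : (N : ℤ) ^ m ∣ g' * (g * V - u) := by
    have := Dvd.dvd.mul_left h'.2 g
    rw [show g' * (g * V - u) = g * (g' * V - u') - (u * g' - u' * g) by ring, he, sub_self,
      sub_zero]
    exact this
  exact (h'.1.symm.pow_left (m := m)).dvd_of_dvd_mul_left h1

end Pool.Agent.W907.NAdic
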