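import Pool.Agent.W907.NAdic.Basic

/-!
The upper bound for the complexity when the base is a prime power.
-/

set_option autoImplicit false

namespace Pool.Agent.W907.NAdic

theorem nm_mul (d u g : ℤ) : nm (d * u) (d * g) = d.natAbs * nm u g := by
  simp only [nm, Int.natAbs_mul]
  rw [Nat.mul_max_mul_left]

theorem nm_pos {u g : ℤ} (h : ¬ (u = 0 ∧ g = 0)) : 1 ≤ nm u g := by
  unfold nm
  by_contra hc
  apply h
  constructor <;> omega

/-- the box principle -/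
theorem exists_small (q : ℕ) (hq : 1 ≤ q) (V : ℤ) :
    ∃ u g : ℤ, ¬ (u = 0 ∧ g = 0) ∧ (q : ℤ) ∣ g * V - u ∧ nm u g ^ 2 ≤ q := by
  have : NeZero q := ⟨by omega⟩
  set s := Nat.sqrt q with hs
  have hlt : q < (s + 1) * (s + 1) := by
    have := Nat.sqrt_lt'.1 (Nat.lt_succ_self (Nat.sqrt q))
    rw [pow_two] at this
    exact this
  have hcard : Fintype.card (ZMod q) < Fintype.card (Fin (s + 1) × Fin (s + 1)) := by
    rw [ZMod.card, Fintype.card_prod, Fintype.card_fin]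
    exact hlt
  obtain ⟨⟨x, y⟩, ⟨x', y'⟩, hne, he⟩ := Fintype.exists_ne_map_eq_of_card_lt
    (fun z : Fin (s + 1) × Fin (s + 1) => (((((z.2 : ℕ) : ℤ) * V - ((z.1 : ℕ) : ℤ) : ℤ)) : ZMod q))
    hcard
  refine ⟨((x : ℕ) : ℤ) - ((x' : ℕ) : ℤ), ((y : ℕ) : ℤ) - ((y' : ℕ) : ℤ), ?_, ?_, ?_⟩
  · rintro ⟨h1, h2⟩
    apply hne
    rw [Prod.mk.injEq]
    constructor
    · apply Fin.ext; omega
    · apply Fin.ext; omega
  · rw [← ZMod.intCast_eq_intCast_iff_dvd_sub]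
    have h2 : ((((y : ℕ) : ℤ) * V - ((x : ℕ) : ℤ) : ℤ) : ZMod q) -
      ((((y' : ℕ) : ℤ) * V - ((x' : ℕ) : ℤ) : ℤ) : ZMod q) = 0 := by rw [sub_eq_zero]; exact he
    rw [eq_comm, ← sub_eq_zero]
    push_cast at h2 ⊢
    linear_combination h2
  · have h1 : nm (((x : ℕ) : ℤ) - ((x' : ℕ) : ℤ)) (((y : ℕ) : ℤ) - ((y' : ℕ) : ℤ)) ≤ s := by
      have := x.isLt
      have := x'.isLt
      have := y.isLt
      have := y'.isLt
      unfold nm
      omega
    calc nm (((x : ℕ) : ℤ) - ((x' : ℕ) : ℤ)) (((y : ℕ) : ℤ) - ((y' : ℕ) : ℤ)) ^ 2 ≤ s ^ 2 :=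
          Nat.pow_le_pow_left h1 2
      _ ≤ q := Nat.sqrt_le' q

/-- a shortest vector and its primitivity -/
theorem exists_short (q : ℕ) (hq : 1 ≤ q) (V : ℤ) :
    ∃ u g t : ℤ, ¬ (u = 0 ∧ g = 0) ∧ g * V - u = q * t ∧ nm u g ^ 2 ≤ q ∧ IsCoprime g t := by
  classical
  have hex : ∃ D : ℕ, ∃ u g : ℤ, ¬ (u = 0 ∧ g = 0) ∧ (q : ℤ) ∣ g * V - u ∧ nm u g = D := by
    obtain ⟨u, g, h1, h2, -⟩ := exists_small q hq V
    exact ⟨_, u, g, h1, h2, rfl⟩
  obtain ⟨u, g, h1, h2, h3⟩ := Nat.find_spec hex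
  have hmin : ∀ u' g' : ℤ, ¬ (u' = 0 ∧ g' = 0) → (q : ℤ) ∣ g' * V - u' → nm u g ≤ nm u' g' := by
    intro u' g' h4 h5
    rw [h3]
    exact Nat.find_min' hex ⟨u', g', h4, h5, rfl⟩
  obtain ⟨t, ht⟩ := h2
  refine ⟨u, g, t, h1, ht, ?_, ?_⟩
  · obtain ⟨u', g', h4, h5, h6⟩ := exists_small q hq V
    exact (Nat.pow_le_pow_left (hmin u' g' h4 h5) 2).trans h6
  · have hgt : ¬ (g = 0 ∧ t = 0) := by
      rintro ⟨hg, ht0⟩
      apply h1
      rw [hg, ht0] at ht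
      exact ⟨by linarith, hg⟩
    rw [Int.isCoprime_iff_gcd_eq_one]
    have hd0 : 0 < Int.gcd g t := by
      apply Nat.pos_of_ne_zero
      intro h0
      exact hgt (Int.gcd_eq_zero_iff.1 h0)
    by_contra hne
    have hd2 : 2 ≤ Int.gcd g t := by omega
    set d : ℤ := (Int.gcd g t : ℤ) with hd
    obtain ⟨g', hg'⟩ : d ∣ g := Int.gcd_dvd_left ..
    obtain ⟨t', ht'⟩ : d ∣ t := Int.gcd_dvd_right ..
    have hu' : u = d * (g' * V - q * t') := by
      have : u = g * V - q * t := by linarith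
      rw [this, hg', ht']
      ring
    have h7 : nm u g = d.natAbs * nm (g' * V - q * t') g' := by
      rw [← nm_mul, ← hu', ← hg']
    have h8 : ¬ (g' * V - q * t' = 0 ∧ g' = 0) := by
      rintro ⟨h9, h10⟩
      apply h1
      rw [hu', hg', h9, h10]
      simp
    have h9 := hmin (g' * V - q * t') g' h8 ⟨t', by ring⟩
    have h10 := nm_pos h8
    have h11 : 2 ≤ d.natAbs := by rw [hd]; simpa using hd2
    rw [h7] at h9
    nlinarith

/-- reduction of a second basis vector -/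
theorem reduce {q : ℕ} {V u1 g1 uy gy : ℤ} (h1 : (q : ℤ) ∣ g1 * V - u1) (hy : (q : ℤ) ∣ gy * V - uy)
    (hdet : u1 * gy - g1 * uy = q) (hne : ¬ (u1 = 0 ∧ g1 = 0)) (hD : nm u1 g1 ^ 2 ≤ q) :
    ∃ c : ℤ, (q : ℤ) ∣ (gy - c * g1) * V - (uy - c * u1) ∧
      nm (uy - c * u1) (gy - c * g1) * nm u1 g1 ≤ 2 * q := by
  have hmem : ∀ c : ℤ, (q : ℤ) ∣ (gy - c * g1) * V - (uy - c * u1) := by
    intro c
    have := dvd_sub hy (Dvd.dvd.mul_left h1 c)
    rwa [show gy * V - uy - c * (g1 * V - u1) = (gy - c * g1) * V - (uy - c * u1) by ring] at this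
  have hD' : (nm u1 g1 : ℤ) ^ 2 ≤ q := by exact_mod_cast hD
  have key : ∀ A B A' B' : ℤ, |A| ≤ nm u1 g1 → |B| = nm u1 g1 → |B'| ≤ nm u1 g1 →
      |A * B' - B * A'| = q → |A'| * nm u1 g1 ≤ 2 * q ∧ |B'| * nm u1 g1 ≤ 2 * q := by
    intro A B A' B' hA hB hB' hAB
    set D : ℤ := (nm u1 g1 : ℤ)
    have hD0 : 0 ≤ D := by positivity
    constructor
    · have h2 : |B * A'| ≤ |A * B'| + |A * B' - B * A'| := by
        have h3 := abs_sub_abs_le_abs_sub (B * A') (A * B')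
        rw [abs_sub_comm] at h3
        linarith
      rw [abs_mul, abs_mul, hAB, hB] at h2
      have h3 : |A| * |B'| ≤ D * D := mul_le_mul hA hB' (abs_nonneg _) hD0
      nlinarith
    · have h3 : |B'| * D ≤ D * D := mul_le_mul_of_nonneg_right hB' hD0
      nlinarith
  have hfin : ∀ uz gz : ℤ, |uz| * nm u1 g1 ≤ 2 * q → |gz| * nm u1 g1 ≤ 2 * q →
      nm uz gz * nm u1 g1 ≤ 2 * q := by
    intro uz gz ha hb
    rw [← Nat.cast_le (α := ℤ)]
    push_cast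
    have : (nm uz gz : ℤ) = max |uz| |gz| := by
      rw [nm, Nat.cast_max, Int.natCast_natAbs, Int.natCast_natAbs]
    rw [this]
    rcases max_choice |uz| |gz| with h | h <;> rw [h] <;> assumption
  have hnm : (nm u1 g1 : ℤ) = max |u1| |g1| := by
    rw [nm, Nat.cast_max, Int.natCast_natAbs, Int.natCast_natAbs]
  have hqabs : |(q : ℤ)| = q := abs_of_nonneg (by positivity)
  rcases le_total |u1| |g1| with hc | hc
  · have hD1 : (nm u1 g1 : ℤ) = |g1| := by rw [hnm]; exact max_eq_right hc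
    have hg1 : g1 ≠ 0 := by
      rintro rfl
      rw [abs_zero] at hc
      exact hne ⟨abs_eq_zero.1 (le_antisymm hc (abs_nonneg _)), rfl⟩
    refine ⟨gy / g1, hmem _, ?_⟩
    have e1 : gy - gy / g1 * g1 = gy % g1 := by
      have := Int.emod_def gy g1
      rw [this]; ring
    have h2 : |gy % g1| ≤ nm u1 g1 := by
      rw [abs_of_nonneg (Int.emod_nonneg _ hg1), hD1]
      exact (Int.emod_lt_abs gy hg1).le
    obtain ⟨h3, h4⟩ := key u1 g1 (uy - gy / g1 * u1) (gy - gy / g1 * g1) (by rw [hD1]; exact hc)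
      (by rw [hD1]) (by rw [e1]; exact h2) (by
        rw [show u1 * (gy - gy / g1 * g1) - g1 * (uy - gy / g1 * u1) = u1 * gy - g1 * uy by ring,
          hdet, hqabs])
    exact hfin _ _ h3 h4
  · have hD1 : (nm u1 g1 : ℤ) = |u1| := by rw [hnm]; exact max_eq_left hc
    have hu1 : u1 ≠ 0 := by
      rintro rfl
      rw [abs_zero] at hc
      exact hne ⟨rfl, abs_eq_zero.1 (le_antisymm hc (abs_nonneg _))⟩
    refine ⟨uy / u1, hmem _, ?_⟩
    have e1 : uy - uy / u1 * u1 = uy % u1 := by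
      have := Int.emod_def uy u1
      rw [this]; ring
    have h2 : |uy % u1| ≤ nm u1 g1 := by
      rw [abs_of_nonneg (Int.emod_nonneg _ hu1), hD1]
      exact (Int.emod_lt_abs uy hu1).le
    obtain ⟨h3, h4⟩ := key g1 u1 (gy - uy / u1 * g1) (uy - uy / u1 * u1) (by rw [hD1]; exact hc)
      (by rw [hD1]) (by rw [e1]; exact h2) (by
        rw [show g1 * (uy - uy / u1 * u1) - u1 * (gy - uy / u1 * g1) = -(u1 * gy - g1 * uy) by ring,
          hdet, abs_neg, hqabs])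
    exact hfin _ _ h4 h3

/-- The upper bound. -/
theorem upper_pp {p k : ℕ} (hp : p.Prime) (hk : 1 ≤ k) (V : ℤ) (n : ℕ) :
    mc (p ^ k) n V ^ 2 ≤ (p ^ k) ^ n ∨
      ∃ n', n' ≤ n ∧ mc (p ^ k) n V * mc (p ^ k) n' V ≤ 2 * (p ^ k) ^ (n' + 1) := by
  have hpI : Prime (p : ℤ) := Nat.prime_iff_prime_int.1 hp
  have hp2 := hp.two_le
  rcases Nat.eq_zero_or_pos n with rfl | hn
  · left
    have h1 : Cd (p ^ k) 0 V 0 1 := ⟨isCoprime_one_left, by simp⟩
    have h2 := mc_le h1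
    have h3 : nm 0 1 = 1 := by simp [nm]
    rw [h3] at h2
    calc mc (p ^ k) 0 V ^ 2 ≤ 1 ^ 2 := Nat.pow_le_pow_left h2 2
      _ = (p ^ k) ^ 0 := by simp
  set q : ℕ := (p ^ k) ^ n with hq
  have hqm : q = p ^ (k * n) := by rw [hq, pow_mul]
  have hm1 : 1 ≤ k * n := Nat.mul_pos hk hn
  have hq1 : 1 ≤ q := by rw [hqm]; exact Nat.one_le_pow _ _ (by omega)
  have hq2 : 2 ≤ q := by
    rw [hqm]
    calc 2 ≤ p := hp2
      _ = p ^ 1 := (pow_one p).symm
      _ ≤ p ^ (k * n) := Nat.pow_le_pow_right (by omega) hm1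
  have hqc : (q : ℤ) = ((p ^ k : ℕ) : ℤ) ^ n := by rw [hq]; push_cast; ring
  obtain ⟨u1, g1, t, hne, hlat, hsm, hcop⟩ := exists_short q hq1 V
  have hlat' : (q : ℤ) ∣ g1 * V - u1 := ⟨t, hlat⟩
  have hcopr : ∀ g : ℤ, ¬ (p : ℤ) ∣ g → IsCoprime g ((p ^ k : ℕ) : ℤ) := by
    intro g hg
    push_cast
    exact (((Prime.coprime_iff_not_dvd hpI).2 hg).symm).pow_right
  by_cases hbad : (p : ℤ) ∣ g1
  swap
  · left
    have h1 : Cd (p ^ k) n V u1 g1 := ⟨hcopr g1 hbad, by rw [← hqc]; exact hlat'⟩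
    exact (Nat.pow_le_pow_left (mc_le h1) 2).trans hsm
  right
  -- second basis vector
  obtain ⟨x, y, hxy⟩ := hcop
  obtain ⟨c, hc1, hc2⟩ := reduce (q := q) (V := V) (u1 := u1) (g1 := g1) (uy := -y * V - q * x)
    (gy := -y) hlat' ⟨x, by ring⟩ (by
      have hu1 : u1 = g1 * V - q * t := by linarith
      rw [hu1]
      linear_combination (q : ℤ) * hxy) hne hsm
  have hgz : ¬ (p : ℤ) ∣ (-y - c * g1) := by
    intro h
    have h1 : (p : ℤ) ∣ y := by
      have := dvd_add h (Dvd.dvd.mul_left hbad c)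
      rw [sub_add_cancel] at this
      exact (dvd_neg.1 this)
    have h2 : (p : ℤ) ∣ 1 := by
      rw [← hxy]
      exact dvd_add (Dvd.dvd.mul_left hbad x) (Dvd.dvd.mul_right h1 t)
    exact hpI.not_dvd_one h2
  have hz : Cd (p ^ k) n V (-y * V - q * x - c * u1) (-y - c * g1) :=
    ⟨hcopr _ hgz, by rw [← hqc]; exact hc1⟩
  have hmain : mc (p ^ k) n V * nm u1 g1 ≤ 2 * q :=
    (Nat.mul_le_mul_right _ (mc_le hz)).trans hc2
  -- g1 ≠ 0
  have hg1 : g1 ≠ 0 := by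
    rintro rfl
    have h1 : (q : ℤ) ∣ u1 := by
      have := hlat'
      rw [zero_mul, zero_sub, dvd_neg] at this
      exact this
    have hu1 : u1 ≠ 0 := fun h => hne ⟨h, rfl⟩
    have h2 : q ≤ u1.natAbs := Nat.le_of_dvd (Int.natAbs_pos.2 hu1) (by
      have := Int.natAbs_dvd_natAbs.2 h1
      rwa [Int.natAbs_natCast] at this)
    have h3 : q ≤ nm u1 0 := h2.trans (le_max_left _ _)
    nlinarith
  obtain ⟨j, g', hg'p, hg'⟩ : ∃ (j : ℕ) (g' : ℤ), ¬ (p : ℤ) ∣ g' ∧ g1 = (p : ℤ) ^ j * g' := by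
    obtain ⟨g', h1, h2⟩ := (FiniteMultiplicity.of_not_isUnit hpI.not_unit
      hg1).exists_eq_pow_mul_and_not_dvd
    exact ⟨_, g', h2, h1⟩
  -- j < k n
  have hj : 2 * j ≤ k * n := by
    have h1 : p ^ j ≤ nm u1 g1 := by
      have h2 : p ^ j ≤ g1.natAbs := by
        apply Nat.le_of_dvd (Int.natAbs_pos.2 hg1)
        have h3 : (p : ℤ) ^ j ∣ g1 := ⟨g', hg'⟩
        have := Int.natAbs_dvd_natAbs.2 h3
        rwa [Int.natAbs_pow, Int.natAbs_natCast] at this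
      exact h2.trans (le_max_right _ _)
    have h2 : p ^ (2 * j) ≤ p ^ (k * n) := by
      rw [← hqm]
      calc p ^ (2 * j) = (p ^ j) ^ 2 := by rw [mul_comm, pow_mul]
        _ ≤ nm u1 g1 ^ 2 := Nat.pow_le_pow_left h1 2
        _ ≤ q := hsm
    exact (Nat.pow_le_pow_iff_right (by omega)).1 h2
  have hpjq : (p : ℤ) ^ j ∣ (q : ℤ) := by
    rw [hqm]; push_cast; exact pow_dvd_pow _ (by omega)
  obtain ⟨u', hu'⟩ : (p : ℤ) ^ j ∣ u1 := by
    have h1 := dvd_sub (Dvd.dvd.mul_right (⟨g', hg'⟩ : (p : ℤ) ^ j ∣ g1) V) (hpjq.trans hlat')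
    rwa [sub_sub_cancel] at h1
  set n' := (k * n - j) / k with hn'
  have hn'n : n' ≤ n := by
    rw [hn']
    calc (k * n - j) / k ≤ (k * n) / k := Nat.div_le_div_right (Nat.sub_le _ _)
      _ = n := Nat.mul_div_cancel_left n (by omega)
  have hcd : Cd (p ^ k) n' V u' g' := by
    refine ⟨hcopr _ hg'p, ?_⟩
    have h1 : ((p ^ k : ℕ) : ℤ) ^ n' ∣ (p : ℤ) ^ (k * n - j) := by
      push_cast
      rw [← pow_mul]
      exact pow_dvd_pow _ (by rw [hn']; exact Nat.mul_div_le _ _)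
    refine h1.trans ?_
    have h2 : (p : ℤ) ^ j * (p : ℤ) ^ (k * n - j) ∣ (p : ℤ) ^ j * (g' * V - u') := by
      rw [← pow_add, show j + (k * n - j) = k * n by omega,
        show (p : ℤ) ^ j * (g' * V - u') = (p : ℤ) ^ j * g' * V - (p : ℤ) ^ j * u' by ring, ← hg',
        ← hu']
      have := hlat'
      rw [hqm] at this
      push_cast at this
      exact this
    have h3 : (p : ℤ) ^ j ≠ 0 := pow_ne_zero _ hpI.ne_zero
    exact (mul_dvd_mul_iff_left h3).1 h2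
  refine ⟨n', hn'n, ?_⟩
  have hnm : nm u1 g1 = p ^ j * nm u' g' := by
    rw [hu', hg', nm_mul, Int.natAbs_pow, Int.natAbs_natCast]
  have h1 : mc (p ^ k) n V * mc (p ^ k) n' V * p ^ j ≤ 2 * p ^ (k * n - j) * p ^ j := by
    calc mc (p ^ k) n V * mc (p ^ k) n' V * p ^ j ≤ mc (p ^ k) n V * nm u' g' * p ^ j :=
          Nat.mul_le_mul_right _ (Nat.mul_le_mul_left _ (mc_le hcd))
      _ = mc (p ^ k) n V * nm u1 g1 := by rw [hnm]; ring
      _ ≤ 2 * q := hmain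
      _ = 2 * p ^ (k * n - j) * p ^ j := by
        rw [mul_assoc, ← pow_add, show k * n - j + j = k * n by omega, hqm]
  have h2 := Nat.le_of_mul_le_mul_right h1 (by positivity)
  refine h2.trans (Nat.mul_le_mul_left _ ?_)
  rw [← pow_mul]
  apply Nat.pow_le_pow_right (by omega)
  have := Nat.lt_mul_div_succ (k * n - j) (show 0 < k by omega)
  rw [hn']
  exact this.le

end Pool.Agent.W907.NAdic
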