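import Mathlib

/-!
Accumulation points of the normalised complexities: the analytic part.
-/

set_option autoImplicit false

namespace Pool.Agent.W907.NAdic

open Set

/-- the set of accumulation points of `L n / n` -/
def Acc (L : ℕ → ℝ) : Set ℝ :=
  {x : ℝ | ∀ ε : ℝ, 0 < ε → ∀ M : ℕ, ∃ n : ℕ, M ≤ n ∧ 1 ≤ n ∧ |L n / n - x| < ε}

/-- the properties of the complexities used in the analytic part -/
structure Prp (L : ℕ → ℝ) : Prop where
  mono : Monotone L
  nonneg : ∀ n, 0 ≤ L n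
  le : ∀ n, L n ≤ n
  jump : ∀ n0, ∃ n, n0 ≤ n ∧ L n < L (n + 1)
  low : ∀ n, L n < L (n + 1) → (n : ℝ) - 1 ≤ L n + L (n + 1)
  up : ∀ n, L n ≤ (n : ℝ) / 2 ∨ ∃ n', n' ≤ n ∧ L n + L n' ≤ n' + 2

/-- `B` is the lower limit of `L n / n` -/
structure Low (L : ℕ → ℝ) (B : ℝ) : Prop where
  ge : ∀ ε : ℝ, 0 < ε → ∃ M : ℕ, ∀ n, M ≤ n → 1 ≤ n → B - ε ≤ L n / n
  le : ∀ ε : ℝ, 0 < ε → ∀ M : ℕ, ∃ n, M ≤ n ∧ 1 ≤ n ∧ L n / n < B + ε

theorem Low.nonneg {L : ℕ → ℝ} {B : ℝ} (h : Prp L) (hB : Low L B) : 0 ≤ B := by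
  by_contra hc
  push Not at hc
  obtain ⟨n, -, h1, h2⟩ := hB.le (-B) (by linarith) 1
  have : 0 ≤ L n / n := div_nonneg (h.nonneg n) (Nat.cast_nonneg n)
  linarith

theorem Prp.unbounded {L : ℕ → ℝ} (h : Prp L) (C : ℝ) : ∃ M : ℕ, ∀ n, M ≤ n → C < L n := by
  obtain ⟨m, hm⟩ := exists_nat_gt (2 * C + 2)
  obtain ⟨n, hn, hj⟩ := h.jump m
  refine ⟨n + 1, fun k hk => ?_⟩
  have h1 := h.low n hj
  have h2 := h.mono hk
  have h3 : (m : ℝ) ≤ n := by exact_mod_cast hn
  linarith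

theorem Low.le_half {L : ℕ → ℝ} {B : ℝ} (h : Prp L) (hB : Low L B) : B ≤ 1 / 2 := by
  by_contra hc
  push Not at hc
  set ε : ℝ := (B - 1 / 2) / 2 with hε
  have hε0 : 0 < ε := by rw [hε]; linarith
  obtain ⟨M, hM⟩ := hB.ge ε hε0
  obtain ⟨m, hm⟩ := exists_nat_gt (2 / ε)
  obtain ⟨K, hK⟩ := h.unbounded (M + m + 3 : ℕ)
  have hn := h.up (K + M + m + 1)
  set n := K + M + m + 1 with hnn
  have hLn := hK n (by omega)
  have key : ∀ k : ℕ, M ≤ k → m + 1 ≤ k → ¬ (2 * L k ≤ (k : ℝ) + 2) := by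
    intro k hk1 hk2 hcon
    have h1 := hM k hk1 (by omega)
    have hk : (0 : ℝ) < k := by exact_mod_cast (by omega : 0 < k)
    rw [le_div_iff₀ hk] at h1
    have h2 : (m : ℝ) ≤ k := by exact_mod_cast (by omega : m ≤ k)
    have h3 : 2 < ε * k := by
      rw [div_lt_iff₀ hε0] at hm
      nlinarith
    have h4 : B - ε = 1 / 2 + ε := by rw [hε]; ring
    rw [h4] at h1
    nlinarith
  rcases hn with hn | ⟨n', hn', h2⟩
  · refine key n (by omega) (by omega) ?_
    have : (0 : ℝ) ≤ 2 := by norm_num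
    linarith
  · have h3 := h.mono hn'
    have h4 : ((M + m + 3 : ℕ) : ℝ) < n' + 2 := by
      have := h.nonneg n'
      linarith
    have h5 : M + m + 3 < n' + 2 := by exact_mod_cast h4
    exact key n' (by omega) (by omega) (by linarith)

theorem Low.upper {L : ℕ → ℝ} {B : ℝ} (h : Prp L) (hB : Low L B) (ε : ℝ) (hε : 0 < ε) :
    ∃ M : ℕ, ∀ n, M ≤ n → 1 ≤ n → L n / n ≤ 1 - B + ε := by
  have hb := hB.le_half h
  obtain ⟨M, hM⟩ := hB.ge (ε / 2) (by linarith)
  obtain ⟨m, hm⟩ := exists_nat_gt (4 / ε)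
  refine ⟨m + 2 * (M + 3), fun n hn h1 => ?_⟩
  have hn0 : (0 : ℝ) < n := by exact_mod_cast h1
  rw [div_le_iff₀ hn0]
  have hmn : (m : ℝ) ≤ n := by exact_mod_cast (by omega : m ≤ n)
  have hMn : 2 * ((M : ℝ) + 3) ≤ n := by exact_mod_cast (by omega : 2 * (M + 3) ≤ n)
  have h4 : 4 < ε * n := by
    rw [div_lt_iff₀ hε] at hm
    nlinarith
  rcases h.up n with h2 | ⟨n', hn', h2⟩
  · nlinarith
  · by_cases hc : M ≤ n' ∧ 1 ≤ n'
    · have h3 := hM n' hc.1 hc.2
      have hn0' : (0 : ℝ) < n' := by exact_mod_cast hc.2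
      rw [le_div_iff₀ hn0'] at h3
      have h5 : (n' : ℝ) ≤ n := by exact_mod_cast hn'
      have h6 : L n ≤ (1 - B + ε / 2) * n' + 2 := by linarith
      have h7 : (1 - B + ε / 2) * n' ≤ (1 - B + ε / 2) * n :=
        mul_le_mul_of_nonneg_left h5 (by linarith)
      nlinarith
    · have h3 : n' ≤ M + 1 := by omega
      have h5 : (n' : ℝ) ≤ M + 1 := by exact_mod_cast h3
      have h6 := h.nonneg n'
      nlinarith

theorem Low.high {L : ℕ → ℝ} {B : ℝ} (h : Prp L) (hB : Low L B) (ε : ℝ) (hε : 0 < ε) (M : ℕ) :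
    ∃ n : ℕ, M ≤ n ∧ 1 ≤ n ∧ 1 - B - ε < L n / n := by
  have hb := hB.nonneg h
  obtain ⟨m, hm⟩ := exists_nat_gt (4 / ε)
  obtain ⟨n, hn, h1, h2⟩ := hB.le (ε / 2) (by linarith) (M + m)
  have hex : ∃ j, n ≤ j ∧ L j < L (j + 1) := h.jump n
  classical
  set j := Nat.find hex with hj
  obtain ⟨hj1, hj2⟩ := Nat.find_spec hex
  rw [← hj] at hj1 hj2
  have hconst : ∀ k, n ≤ k → k ≤ j → L k = L n := by
    intro k hk
    induction k, hk using Nat.le_induction with
    | base => intro _; rfl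
    | succ k hk ih =>
      intro hkj
      have h3 := ih (by omega)
      have h4 := Nat.find_min hex (m := k) (by omega)
      have h5 : ¬ L k < L (k + 1) := fun h => h4 ⟨hk, h⟩
      have h6 := h.mono (Nat.le_succ k)
      rw [← h3]
      exact le_antisymm (not_lt.1 h5) h6
  have h3 := hconst j hj1 le_rfl
  have h4 := h.low j hj2
  refine ⟨j + 1, by omega, by omega, ?_⟩
  have hn0 : (0 : ℝ) < n := by exact_mod_cast h1
  rw [div_lt_iff₀ hn0] at h2
  have hjn : (n : ℝ) ≤ j := by exact_mod_cast hj1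
  have hmj : (m : ℝ) ≤ j := by exact_mod_cast (by omega : m ≤ j)
  have h5 : 4 < ε * j := by
    rw [div_lt_iff₀ hε] at hm
    nlinarith
  push_cast
  rw [lt_div_iff₀ (by positivity)]
  have h6 : (B + ε / 2) * n ≤ (B + ε / 2) * j := mul_le_mul_of_nonneg_left hjn (by linarith)
  nlinarith

theorem acc_eq {L : ℕ → ℝ} {B : ℝ} (h : Prp L) (hB : Low L B) : Acc L = Icc B (1 - B) := by
  ext x
  constructor
  · intro hx
    constructor
    · by_contra hc
      push Not at hc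
      obtain ⟨M, hM⟩ := hB.ge ((B - x) / 2) (by linarith)
      obtain ⟨n, h1, h2, h3⟩ := hx ((B - x) / 2) (by linarith) M
      have := hM n h1 h2
      have := abs_lt.1 h3
      linarith
    · by_contra hc
      push Not at hc
      obtain ⟨M, hM⟩ := hB.upper h ((x - (1 - B)) / 2) (by linarith)
      obtain ⟨n, h1, h2, h3⟩ := hx ((x - (1 - B)) / 2) (by linarith) M
      have := hM n h1 h2
      have := abs_lt.1 h3
      linarith
  · rintro ⟨hx1, hx2⟩ ε hε M
    obtain ⟨m, hm⟩ := exists_nat_gt (2 / ε)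
    obtain ⟨n1, hn1, h11, h12⟩ := hB.high h (ε / 2) (by linarith) (M + m + 1)
    obtain ⟨n2, hn2, h21, h22⟩ := hB.le (ε / 2) (by linarith) n1
    have hex : ∃ n, n1 ≤ n ∧ L n / n < x + ε / 2 := ⟨n2, hn2, by linarith⟩
    classical
    set n := Nat.find hex with hn
    obtain ⟨hn3, hn4⟩ := Nat.find_spec hex
    rw [← hn] at hn3 hn4
    refine ⟨n, by omega, by omega, ?_⟩
    rw [abs_lt]
    refine ⟨?_, by linarith⟩
    rcases Nat.lt_or_ge n1 n with hlt | hge
    · have h5 : ¬ (n1 ≤ n - 1 ∧ L (n - 1) / ((n - 1 : ℕ) : ℝ) < x + ε / 2) :=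
        Nat.find_min hex (m := n - 1) (by omega)
      have h6 : x + ε / 2 ≤ L (n - 1) / ((n - 1 : ℕ) : ℝ) := by
        by_contra hc
        exact h5 ⟨by omega, by linarith⟩
      obtain ⟨k, hk⟩ : ∃ k, n = k + 1 := ⟨n - 1, by omega⟩
      rw [hk] at h6 ⊢
      simp only [Nat.add_sub_cancel] at h6
      have hk0 : (0 : ℝ) < k := by exact_mod_cast (by omega : 0 < k)
      have hkm : (m : ℝ) ≤ k := by exact_mod_cast (by omega : m ≤ k)
      have h7 : 2 < ε * k := by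
        rw [div_lt_iff₀ hε] at hm
        nlinarith
      have h8 := h.mono (Nat.le_succ k)
      have h9 := h.le k
      rw [le_div_iff₀ hk0] at h6
      have h10 : x - ε < L (k + 1) / ((k + 1 : ℕ) : ℝ) := by
        push_cast
        rw [lt_div_iff₀ (by positivity)]
        have h11 : (x + ε / 2) * k ≤ k := h6.trans h9
        have h12 : x + ε / 2 ≤ 1 := by
          by_contra hc
          push Not at hc
          nlinarith
        nlinarith
      linarith
    · have : n = n1 := le_antisymm hge hn3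
      rw [this]
      linarith

/-- The lower limit exists. -/
theorem exists_low {L : ℕ → ℝ} (h : Prp L) : ∃ B, Low L B := by
  set S : Set ℝ := {x | ∃ M : ℕ, ∀ n, M ≤ n → 1 ≤ n → x ≤ L n / n} with hS
  have hne : S.Nonempty := ⟨0, 0, fun n _ _ => div_nonneg (h.nonneg n) (Nat.cast_nonneg n)⟩
  have hbd : BddAbove S := by
    refine ⟨1, ?_⟩
    rintro x ⟨M, hM⟩
    refine (hM (M + 1) (by omega) (by omega)).trans ?_
    rw [div_le_one (by positivity)]
    exact h.le _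
  refine ⟨sSup S, ⟨fun ε hε => ?_, fun ε hε M => ?_⟩⟩
  · obtain ⟨x, ⟨M, hM⟩, hx⟩ := exists_lt_of_lt_csSup hne (show sSup S - ε < sSup S by linarith)
    exact ⟨M, fun n hn h1 => hx.le.trans (hM n hn h1)⟩
  · by_contra hc
    push Not at hc
    have h1 : sSup S + ε ∈ S := ⟨M, fun n hn h1 => hc n hn h1⟩
    have h2 := le_csSup hbd h1
    linarith

end Pool.Agent.W907.NAdic
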