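import Pool.Agent.W907.NAdic.Lat
import Pool.Agent.W907.NAdic.Real

/-!
Assertion (a) for prime powers.
-/

set_option autoImplicit false

namespace Pool.Agent.W907.NAdic

open Finset
open Pool.Agent.Results.MP_8b2777_lc.NonPrimePowerDisproof

/-- the complexity of a residue -/
noncomputable def Lf (N n : ℕ) (V : ℤ) : ℝ := Real.logb N (mc N n V)

/-- the complexities of the prefixes -/
noncomputable def LL (N : ℕ) (a : ℕ → Fin N) (n : ℕ) : ℝ := Lf N n (prefixValue N a n)

theorem accPoints_eq_Acc {N : ℕ} (hN : 2 ≤ N) (a : ℕ → Fin N) : accPoints N a = Acc (LL N a) := by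
  unfold accPoints Acc
  simp only [normComplexity, prefixComplexity_eq_mc hN, LL, Lf]

theorem pv_nonneg (N : ℕ) (a : ℕ → Fin N) (n : ℕ) : 0 ≤ prefixValue N a n :=
  Finset.sum_nonneg fun i _ => by positivity

theorem pv_lt {N : ℕ} (hN : 2 ≤ N) (a : ℕ → Fin N) (n : ℕ) : prefixValue N a n < (N : ℤ) ^ n := by
  induction n with
  | zero => simp [prefixValue]
  | succ n ih =>
    rw [prefixValue_succ, pow_succ]
    have h1 : (((a n : Fin N) : ℕ) : ℤ) + 1 ≤ N := by
      have := (a n).isLt
      exact_mod_cast this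
    have h2 : (0 : ℤ) ≤ (N : ℤ) ^ n := by positivity
    nlinarith

theorem one_lt_real {N : ℕ} (hN : 2 ≤ N) : (1 : ℝ) < (N : ℝ) := by exact_mod_cast (by omega : 1 < N)

theorem mc_pos_real {N : ℕ} (hN : 2 ≤ N) (n : ℕ) (V : ℤ) : (0 : ℝ) < (mc N n V : ℝ) := by
  have := mc_pos hN n V
  exact_mod_cast this

theorem Lf_nonneg {N : ℕ} (hN : 2 ≤ N) (n : ℕ) (V : ℤ) : 0 ≤ Lf N n V := by
  apply Real.logb_nonneg (one_lt_real hN)
  have := mc_pos hN n V
  exact_mod_cast this

theorem Lf_le_Lf {N n n' : ℕ} {V V' : ℤ} (hN : 2 ≤ N) (h : mc N n V ≤ mc N n' V') :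
    Lf N n V ≤ Lf N n' V' :=
  Real.logb_le_logb_of_le (one_lt_real hN) (mc_pos_real hN n V) (by exact_mod_cast h)

theorem LL_mono {N : ℕ} (hN : 2 ≤ N) (a : ℕ → Fin N) : Monotone (LL N a) := fun _ _ h =>
  Lf_le_Lf hN (mc_mono h (pv_dvd N a h))

theorem LL_le {N : ℕ} (hN : 2 ≤ N) (a : ℕ → Fin N) (n : ℕ) : LL N a n ≤ n := by
  have h1 : mc N n (prefixValue N a n) ≤ N ^ n := by
    refine (mc_le (cd_one N n _)).trans ?_
    have h2 := pv_nonneg N a n
    have h3 := pv_lt hN a n
    have h4 : (prefixValue N a n).natAbs ≤ N ^ n := by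
      have : ((prefixValue N a n).natAbs : ℤ) ≤ ((N ^ n : ℕ) : ℤ) := by
        rw [Int.natAbs_of_nonneg h2]
        push_cast
        exact h3.le
      exact_mod_cast this
    have h5 : 1 ≤ N ^ n := Nat.one_le_pow _ _ (by omega)
    simp only [nm, Int.natAbs_one]
    omega
  have h2 : Real.logb N (mc N n (prefixValue N a n)) ≤ Real.logb N ((N : ℝ) ^ n) :=
    Real.logb_le_logb_of_le (one_lt_real hN) (mc_pos_real hN n _) (by exact_mod_cast h1)
  rw [Real.logb_pow, Real.logb_self_eq_one (one_lt_real hN), mul_one] at h2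
  exact h2

theorem logb_two_le {N : ℕ} (hN : 2 ≤ N) : Real.logb N 2 ≤ 1 := by
  have := Real.logb_le_logb_of_le (one_lt_real hN) (by norm_num : (0 : ℝ) < 2)
    (by exact_mod_cast hN : (2 : ℝ) ≤ (N : ℝ))
  rwa [Real.logb_self_eq_one (one_lt_real hN)] at this

/-- from products of norms to sums of complexities -/
theorem low_of {N : ℕ} (hN : 2 ≤ N) {n n' k : ℕ} {V V' : ℤ}
    (h : N ^ k ≤ 2 * (mc N n V * mc N n' V')) : (k : ℝ) - 1 ≤ Lf N n V + Lf N n' V' := by
  have h1 : ((N : ℝ) ^ k) ≤ 2 * ((mc N n V : ℝ) * (mc N n' V' : ℝ)) := by exact_mod_cast h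
  have hN1 := one_lt_real hN
  have hp : (0 : ℝ) < (N : ℝ) := by linarith
  have h2 := Real.logb_le_logb_of_le hN1 (by positivity) h1
  have m1 := mc_pos_real hN n V
  have m2 := mc_pos_real hN n' V'
  rw [Real.logb_pow, Real.logb_self_eq_one hN1, mul_one, Real.logb_mul (by norm_num) (by positivity),
    Real.logb_mul (by positivity) (by positivity)] at h2
  have := logb_two_le hN
  unfold Lf
  linarith

theorem up_of {N : ℕ} (hN : 2 ≤ N) {n n' k : ℕ} {V V' : ℤ}
    (h : mc N n V * mc N n' V' ≤ 2 * N ^ (k + 1)) : Lf N n V + Lf N n' V' ≤ k + 2 := by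
  have h1 : (mc N n V : ℝ) * (mc N n' V' : ℝ) ≤ 2 * (N : ℝ) ^ (k + 1) := by exact_mod_cast h
  have hN1 := one_lt_real hN
  have hp : (0 : ℝ) < (N : ℝ) := by linarith
  have m1 := mc_pos_real hN n V
  have m2 := mc_pos_real hN n' V'
  have h2 := Real.logb_le_logb_of_le hN1 (by positivity) h1
  rw [Real.logb_mul m1.ne' m2.ne', Real.logb_mul (by norm_num) (by positivity), Real.logb_pow,
    Real.logb_self_eq_one hN1] at h2
  have := logb_two_le hN
  unfold Lf
  push_cast at h2
  linarith

/-- Sequences with a bounded approximation are eventually periodic. -/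
theorem eventuallyPeriodic_of {N : ℕ} (hN : 2 ≤ N) {a : ℕ → Fin N} {u g : ℤ}
    (h : ∀ n, Cd N n (prefixValue N a n) u g) : EventuallyPeriodic a := by
  have hN0 : 0 < N := by omega
  have hgN := (h 0).1
  obtain ⟨h1, h', hh⟩ := hgN
  have hgh : (N : ℤ) ∣ g * h1 - 1 := ⟨-h', by linear_combination hh⟩
  have hper := digits_eventuallyPeriodic N hN hN0 g h1 u hgh
  have heq : ∀ k, ∀ i, i < k → a i = digits N hN0 g h1 u i := by
    intro k
    induction k with
    | zero => intro i hi; omega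
    | succ k ih =>
      intro i hi
      rcases Nat.lt_or_ge i k with hik | hik
      · exact ih i hik
      · have hik : i = k := by omega
        subst hik
        have e1 := (h (i + 1)).2
        have e2 : (N : ℤ) ^ (i + 1) ∣ g * prefixValue N (digits N hN0 g h1 u) (i + 1) - u := by
          have := digits_spec N hN0 g h1 u hgh (i + 1)
          exact ⟨- carry N g h1 u (i + 1), by linear_combination -this⟩
        have e3 := dvd_sub e1 e2
        rw [show g * prefixValue N a (i + 1) - u - (g * prefixValue N (digits N hN0 g h1 u) (i + 1) -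
          u) = g * (prefixValue N a (i + 1) - prefixValue N (digits N hN0 g h1 u) (i + 1)) by
          ring] at e3
        have e4 := (((h 0).1.symm).pow_left (m := i + 1)).dvd_of_dvd_mul_left e3
        have e5 : prefixValue N a i = prefixValue N (digits N hN0 g h1 u) i := by
          apply Finset.sum_congr rfl
          intro j hj
          rw [ih j (Finset.mem_range.1 hj)]
        rw [prefixValue_succ, prefixValue_succ, e5, pow_succ] at e4
        have e6 : (N : ℤ) ^ i * N ∣ (N : ℤ) ^ i * ((((a i : Fin N) : ℕ) : ℤ) -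
            (((digits N hN0 g h1 u i : Fin N) : ℕ) : ℤ)) := by
          rw [show (N : ℤ) ^ i * ((((a i : Fin N) : ℕ) : ℤ) -
            (((digits N hN0 g h1 u i : Fin N) : ℕ) : ℤ)) =
            prefixValue N (digits N hN0 g h1 u) i + (((a i : Fin N) : ℕ) : ℤ) * (N : ℤ) ^ i -
            (prefixValue N (digits N hN0 g h1 u) i +
            (((digits N hN0 g h1 u i : Fin N) : ℕ) : ℤ) * (N : ℤ) ^ i) by ring]
          exact e4
        have e7 : (N : ℤ) ∣ ((((a i : Fin N) : ℕ) : ℤ) -
            (((digits N hN0 g h1 u i : Fin N) : ℕ) : ℤ)) :=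
          (mul_dvd_mul_iff_left (pow_ne_zero _ (by exact_mod_cast hN0.ne'))).1 e6
        have b1 := (a i).isLt
        have b2 := (digits N hN0 g h1 u i).isLt
        apply Fin.ext
        obtain ⟨c, hc⟩ := e7
        have c0 : c = 0 := by
          by_contra hne
          rcases lt_or_gt_of_ne hne with hlt | hgt
          · have : (N : ℤ) * c ≤ -N := by nlinarith
            omega
          · have : (N : ℤ) ≤ N * c := by nlinarith
            omega
        rw [c0, mul_zero] at hc
        omega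
  have : a = digits N hN0 g h1 u := by
    funext i
    exact heq (i + 1) i (Nat.lt_succ_self i)
  rw [this]
  exact hper

/-- Eventually periodic sequences have a bounded complexity. -/
theorem bounded_of {N : ℕ} (hN : 2 ≤ N) {a : ℕ → Fin N} (ha : EventuallyPeriodic a) :
    ∃ C : ℝ, ∀ n, LL N a n ≤ C := by
  obtain ⟨m, p, hp, hper⟩ := ha
  have hconst : ∀ k, prefixValue N a (m + k + p) - (N : ℤ) ^ p * prefixValue N a (m + k) =
      prefixValue N a (m + p) - (N : ℤ) ^ p * prefixValue N a m := by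
    intro k
    induction k with
    | zero => simp
    | succ k ih =>
      have e1 : m + (k + 1) + p = (m + k + p) + 1 := by ring
      have e2 : m + (k + 1) = (m + k) + 1 := by ring
      rw [e1, e2, prefixValue_succ, prefixValue_succ, hper (m + k) (by omega), ← ih, pow_add]
      ring
  set u := prefixValue N a (m + p) - (N : ℤ) ^ p * prefixValue N a m with hu
  have hcd : ∀ n, Cd N n (prefixValue N a n) u (1 - (N : ℤ) ^ p) := by
    intro n
    refine ⟨⟨1, (N : ℤ) ^ (p - 1), ?_⟩, ?_⟩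
    · rw [← pow_succ, show p - 1 + 1 = p by omega]; ring
    · rw [← hconst n]
      have h1 := prefixValue_mod N a n (m + p)
      have h2 := prefixValue_mod N a n m
      have e1 : n + (m + p) = m + n + p := by ring
      have e2 : n + m = m + n := by ring
      rw [e1] at h1
      rw [e2] at h2
      have h3 := dvd_sub (Dvd.dvd.mul_left h2 ((N : ℤ) ^ p)) h1
      rw [show (1 - (N : ℤ) ^ p) * prefixValue N a n - (prefixValue N a (m + n + p) -
        (N : ℤ) ^ p * prefixValue N a (m + n)) = (N : ℤ) ^ p * (prefixValue N a (m + n) -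
        prefixValue N a n) - (prefixValue N a (m + n + p) - prefixValue N a n) by ring]
      exact h3
  refine ⟨Real.logb N (nm u (1 - (N : ℤ) ^ p)), fun n => ?_⟩
  exact Real.logb_le_logb_of_le (one_lt_real hN) (mc_pos_real hN n _) (by exact_mod_cast mc_le (hcd n))

/-- The complexity of a sequence which is not eventually periodic jumps infinitely often. -/
theorem jump_of {N : ℕ} (hN : 2 ≤ N) {a : ℕ → Fin N} (ha : ¬ EventuallyPeriodic a) (n0 : ℕ) :
    ∃ n, n0 ≤ n ∧ LL N a n < LL N a (n + 1) := by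
  by_contra hc
  push Not at hc
  apply ha
  have hmc : ∀ n, n0 ≤ n → mc N n (prefixValue N a n) = mc N n0 (prefixValue N a n0) := by
    intro n hn
    induction n, hn using Nat.le_induction with
    | base => rfl
    | succ n hn ih =>
      have h1 := hc n hn
      have h2 : mc N (n + 1) (prefixValue N a (n + 1)) ≤ mc N n (prefixValue N a n) := by
        by_contra h3
        push Not at h3
        have h4 : LL N a n < LL N a (n + 1) :=
          Real.logb_lt_logb (one_lt_real hN) (mc_pos_real hN n _) (by exact_mod_cast h3)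
        linarith
      have h3 := mc_mono (N := N) (Nat.le_succ n) (pv_dvd N a (Nat.le_succ n))
      simp only [Nat.succ_eq_add_one] at h3
      omega
  set C := mc N n0 (prefixValue N a n0) with hC
  have hex : ∀ n, ∃ x : ℤ × ℤ, Cd N (n0 + n) (prefixValue N a (n0 + n)) x.1 x.2 ∧
      nm x.1 x.2 = C := by
    intro n
    obtain ⟨u, g, h1, h2⟩ := mc_mem N (n0 + n) (prefixValue N a (n0 + n))
    exact ⟨(u, g), h1, by rw [← h2, hmc _ (by omega)]⟩
  choose x hx1 hx2 using hex
  have hfin : (Set.Icc (-(C : ℤ)) C ×ˢ Set.Icc (-(C : ℤ)) C).Finite :=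
    (Set.finite_Icc _ _).prod (Set.finite_Icc _ _)
  have hmem : ∀ n, x n ∈ (Set.Icc (-(C : ℤ)) C ×ˢ Set.Icc (-(C : ℤ)) C) := by
    intro n
    have h1 := hx2 n
    unfold nm at h1
    simp only [Set.mem_prod, Set.mem_Icc]
    omega
  obtain ⟨y, hy⟩ : ∃ y, ∀ m : ℕ, ∃ n, m ≤ n ∧ x n = y := by
    by_contra hcon
    push Not at hcon
    choose f hf using hcon
    have hb : ∃ M, ∀ z ∈ (Set.Icc (-(C : ℤ)) C ×ˢ Set.Icc (-(C : ℤ)) C), f z ≤ M := by
      obtain ⟨M, hM⟩ := (hfin.image f).bddAbove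
      exact ⟨M, fun z hz => hM ⟨z, hz, rfl⟩⟩
    obtain ⟨M, hM⟩ := hb
    exact hf (x M) M (hM _ (hmem M)) rfl
  refine eventuallyPeriodic_of hN (u := y.1) (g := y.2) fun n => ?_
  obtain ⟨m, hm1, hm2⟩ := hy n
  have := hx1 m
  rw [hm2] at this
  exact this.down (by omega) (pv_dvd N a (by omega))

theorem Cd.trans' {N m : ℕ} {V u g u' g' : ℤ} (h : IsCoprime g (N : ℤ)) (h' : Cd N m V u' g')
    (he : u * g' = u' * g) : Cd N m V u g :=
  Cd.trans (n := 0) ⟨h, by simp⟩ h' he

theorem low_jump {N : ℕ} (hN : 2 ≤ N) (a : ℕ → Fin N) (n : ℕ) (h : LL N a n < LL N a (n + 1)) :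
    (n : ℝ) - 1 ≤ LL N a n + LL N a (n + 1) := by
  apply low_of hN
  obtain ⟨u, g, h1, h2⟩ := mc_mem N n (prefixValue N a n)
  obtain ⟨u', g', h3, h4⟩ := mc_mem N (n + 1) (prefixValue N a (n + 1))
  rw [h2, h4]
  refine cross h1 (h3.down (Nat.le_succ n) (pv_dvd N a (Nat.le_succ n))) fun he => ?_
  have h5 := mc_le (Cd.trans' h1.1 h3 he)
  rw [← h2] at h5
  have := Lf_le_Lf hN h5
  unfold LL at h
  linarith

theorem prp {N : ℕ} (hN : IsPrimePow N) {a : ℕ → Fin N} (ha : ¬ EventuallyPeriodic a) :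
    Prp (LL N a) := by
  have hN2 : 2 ≤ N := hN.two_le
  obtain ⟨p, k, hp, hk, rfl⟩ := (isPrimePow_nat_iff N).1 hN
  refine ⟨LL_mono hN2 a, fun n => Lf_nonneg hN2 _ _, LL_le hN2 a, jump_of hN2 ha,
    low_jump hN2 a, fun n => ?_⟩
  rcases upper_pp hp hk (prefixValue (p ^ k) a n) n with h | ⟨n', hn', h⟩
  · left
    have h1 : ((mc (p ^ k) n (prefixValue (p ^ k) a n) : ℝ)) ^ 2 ≤ (((p ^ k : ℕ) : ℝ)) ^ n := by
      exact_mod_cast h
    have m1 := mc_pos_real hN2 n (prefixValue (p ^ k) a n)
    have h2 := Real.logb_le_logb_of_le (one_lt_real hN2) (by positivity) h1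
    rw [Real.logb_pow, Real.logb_pow, Real.logb_self_eq_one (one_lt_real hN2), mul_one] at h2
    unfold LL Lf
    push_cast at h2 ⊢
    linarith
  · right
    refine ⟨n', hn', ?_⟩
    have h1 : mc (p ^ k) n' (prefixValue (p ^ k) a n) = mc (p ^ k) n' (prefixValue (p ^ k) a n') :=
      (mc_congr (pv_dvd _ a hn')).symm
    rw [h1] at h
    exact up_of hN2 h

/-- Assertion (a) for prime powers. -/
theorem assertionA {N : ℕ} (hN : IsPrimePow N) : AssertionA N := by
  intro a ha
  have h := prp hN ha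
  obtain ⟨B, hB⟩ := exists_low h
  exact ⟨B, by rw [accPoints_eq_Acc hN.two_le, acc_eq h hB]⟩

end Pool.Agent.W907.NAdic
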