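import Pool.Agent.W907.NAdic.PartA

/-!
Assertion (b) for prime powers: sequences with a prescribed lower limit of the normalised
complexity, different from countably many given sequences.
-/

set_option autoImplicit false

namespace Pool.Agent.W907.NAdic

open Finset
open Pool.Agent.Results.MP_8b2777_lc.NonPrimePowerDisproof

theorem exists_digit {N n : ℕ} {V u g : ℤ} (hN : 2 ≤ N) (h : Cd N n V u g) :
    ∃ d : Fin N, Cd N (n + 1) (V + ((d : ℕ) : ℤ) * (N : ℤ) ^ n) u g := by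
  have hN0 : 0 < N := by omega
  obtain ⟨h1, h', hh⟩ := h.1
  obtain ⟨q, hq⟩ := h.2
  refine ⟨digit N hN0 (-(h1 * q)), h.1, ?_⟩
  rw [digit_coe]
  obtain ⟨e, he⟩ : (N : ℤ) ∣ -(h1 * q) - -(h1 * q) % (N : ℤ) := Int.dvd_self_sub_emod
  have h3 : -(h1 * q) % (N : ℤ) = -(h1 * q) - N * e := by linarith
  rw [h3, pow_succ]
  refine ⟨q * h' - g * e, ?_⟩
  linear_combination hq + (-(N : ℤ) ^ n * q) * hh

theorem digit_unique {N n : ℕ} {V u g : ℤ} (hN : 2 ≤ N) {d d' : Fin N}
    (h : Cd N (n + 1) (V + ((d : ℕ) : ℤ) * (N : ℤ) ^ n) u g)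
    (h' : Cd N (n + 1) (V + ((d' : ℕ) : ℤ) * (N : ℤ) ^ n) u g) : d = d' := by
  have hN0 : 0 < N := by omega
  have e3 := dvd_sub h.2 h'.2
  rw [show g * (V + ((d : ℕ) : ℤ) * (N : ℤ) ^ n) - u - (g * (V + ((d' : ℕ) : ℤ) * (N : ℤ) ^ n) - u) =
    g * ((N : ℤ) ^ n * (((d : ℕ) : ℤ) - ((d' : ℕ) : ℤ))) by ring] at e3
  have e4 := ((h.1.symm).pow_left (m := n + 1)).dvd_of_dvd_mul_left e3
  rw [pow_succ] at e4
  have e7 : (N : ℤ) ∣ (((d : ℕ) : ℤ) - ((d' : ℕ) : ℤ)) :=
    (mul_dvd_mul_iff_left (pow_ne_zero _ (by exact_mod_cast hN0.ne'))).1 e4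
  have b1 := d.isLt
  have b2 := d'.isLt
  apply Fin.ext
  obtain ⟨c, hc⟩ := e7
  have c0 : c = 0 := by
    by_contra hne
    rcases lt_or_gt_of_ne hne with hlt | hgt
    · have : (N : ℤ) * c ≤ -N := by nlinarith
      omega
    · have : (N : ℤ) ≤ N * c := by nlinarith
      omega
  rw [c0, mul_zero] at hc
  omega

section construction

variable {N : ℕ} (hN : 2 ≤ N)

include hN in
/-- a shortest approximation -/
theorem exists_fd (n : ℕ) (V : ℤ) : ∃ d : Fin N, ∃ u g, Cd N n V u g ∧ mc N n V = nm u g ∧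
    Cd N (n + 1) (V + ((d : ℕ) : ℤ) * (N : ℤ) ^ n) u g := by
  obtain ⟨u, g, h1, h2⟩ := mc_mem N n V
  obtain ⟨d, hd⟩ := exists_digit hN h1
  exact ⟨d, u, g, h1, h2, hd⟩

/-- the digit which continues a shortest approximation -/
noncomputable def fd (n : ℕ) (V : ℤ) : Fin N := (exists_fd hN n V).choose

theorem exists_bd (n : ℕ) (V : ℤ) : ∃ d : Fin N, d ≠ fd hN n V := by
  have : Nontrivial (Fin N) := Fin.nontrivial_iff_two_le.2 hN
  exact exists_ne _

/-- another digit -/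
noncomputable def bd (n : ℕ) (V : ℤ) : Fin N := (exists_bd hN n V).choose

theorem bd_ne (n : ℕ) (V : ℤ) : bd hN n V ≠ fd hN n V := (exists_bd hN n V).choose_spec

theorem fd_spec (n : ℕ) (V : ℤ) :
    Lf N (n + 1) (V + ((fd hN n V : ℕ) : ℤ) * (N : ℤ) ^ n) = Lf N n V := by
  obtain ⟨u, g, h1, h2, h3⟩ := (exists_fd hN n V).choose_spec
  unfold Lf
  congr 2
  apply le_antisymm
  · have := mc_le h3
    rw [← h2] at this
    exact this
  · refine mc_mono (Nat.le_succ n) ⟨((fd hN n V : ℕ) : ℤ), ?_⟩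
    ring

theorem bd_spec (n : ℕ) (V : ℤ) : (n : ℝ) - 1 ≤ Lf N n V +
    Lf N (n + 1) (V + ((bd hN n V : ℕ) : ℤ) * (N : ℤ) ^ n) := by
  apply low_of hN
  obtain ⟨u, g, h1, h2, h3⟩ := (exists_fd hN n V).choose_spec
  obtain ⟨u', g', h4, h5⟩ := mc_mem N (n + 1) (V + ((bd hN n V : ℕ) : ℤ) * (N : ℤ) ^ n)
  rw [h2, h5]
  refine cross h1 (h4.down (Nat.le_succ n) ⟨((bd hN n V : ℕ) : ℤ), by ring⟩) fun he => ?_
  have h6 := Cd.trans' h1.1 h4 he
  exact bd_ne hN n V (digit_unique hN h6 h3)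

variable (θ : ℕ → ℝ) (s : ℕ → ℕ → Fin N)

open Classical in
/-- one step: the digit, the number of the next sequence to be avoided, and whether the next step
has to be a break -/
noncomputable def stp (n : ℕ) (x : ℤ × ℕ × Bool) : Fin N × ℕ × Bool :=
  if x.2.2 = true then (bd hN n x.1, x.2.1, false)
  else if Lf N n x.1 ≤ θ n then
    (if s x.2.1 n = bd hN n x.1 then (fd hN n x.1, x.2.1 + 1, true)
      else (bd hN n x.1, x.2.1 + 1, false))
  else (fd hN n x.1, x.2.1, false)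

/-- the states -/
noncomputable def st : ℕ → ℤ × ℕ × Bool
  | 0 => (0, 0, false)
  | n + 1 => ((st n).1 + (((stp hN θ s n (st n)).1 : ℕ) : ℤ) * (N : ℤ) ^ n,
      (stp hN θ s n (st n)).2)

/-- the sequence -/
noncomputable def sq (n : ℕ) : Fin N := (stp hN θ s n (st hN θ s n)).1

theorem pv_sq (n : ℕ) : prefixValue N (sq hN θ s) n = (st hN θ s n).1 := by
  induction n with
  | zero => simp [prefixValue, st]
  | succ n ih =>
    rw [prefixValue_succ, ih]
    rfl

/-- the cases -/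
theorem stCases (n : ℕ) :
    ((st hN θ s n).2.2 = false ∧ θ n < LL N (sq hN θ s) n ∧
      LL N (sq hN θ s) (n + 1) = LL N (sq hN θ s) n ∧ (st hN θ s (n + 1)).2.1 = (st hN θ s n).2.1 ∧
      (st hN θ s (n + 1)).2.2 = false) ∨
    ((st hN θ s n).2.2 = false ∧ LL N (sq hN θ s) n ≤ θ n ∧ sq hN θ s n ≠ s (st hN θ s n).2.1 n ∧
      LL N (sq hN θ s) (n + 1) = LL N (sq hN θ s) n ∧
      (st hN θ s (n + 1)).2.1 = (st hN θ s n).2.1 + 1 ∧ (st hN θ s (n + 1)).2.2 = true) ∨
    ((st hN θ s n).2.2 = false ∧ LL N (sq hN θ s) n ≤ θ n ∧ sq hN θ s n ≠ s (st hN θ s n).2.1 n ∧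
      (n : ℝ) - 1 ≤ LL N (sq hN θ s) n + LL N (sq hN θ s) (n + 1) ∧
      (st hN θ s (n + 1)).2.1 = (st hN θ s n).2.1 + 1 ∧ (st hN θ s (n + 1)).2.2 = false) ∨
    ((st hN θ s n).2.2 = true ∧ (n : ℝ) - 1 ≤ LL N (sq hN θ s) n + LL N (sq hN θ s) (n + 1) ∧
      (st hN θ s (n + 1)).2.1 = (st hN θ s n).2.1 ∧ (st hN θ s (n + 1)).2.2 = false) := by
  have e1 : LL N (sq hN θ s) n = Lf N n (st hN θ s n).1 := by rw [LL, pv_sq]
  have e2 : LL N (sq hN θ s) (n + 1) = Lf N (n + 1) ((st hN θ s n).1 +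
      ((sq hN θ s n : ℕ) : ℤ) * (N : ℤ) ^ n) := by
    rw [LL, pv_sq]; rfl
  have e3 : (st hN θ s (n + 1)).2 = (stp hN θ s n (st hN θ s n)).2 := rfl
  rw [e1, e2, e3]
  by_cases h1 : (st hN θ s n).2.2 = true
  · right; right; right
    have h2 : stp hN θ s n (st hN θ s n) = (bd hN n (st hN θ s n).1, (st hN θ s n).2.1, false) := by
      rw [stp, if_pos h1]
    have h3 : sq hN θ s n = bd hN n (st hN θ s n).1 := by rw [sq, h2]
    rw [h3, h2]
    exact ⟨h1, bd_spec hN n _, rfl, rfl⟩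
  · have h1' : (st hN θ s n).2.2 = false := by simpa using h1
    by_cases h4 : Lf N n (st hN θ s n).1 ≤ θ n
    · by_cases h5 : s (st hN θ s n).2.1 n = bd hN n (st hN θ s n).1
      · right; left
        have h2 : stp hN θ s n (st hN θ s n) = (fd hN n (st hN θ s n).1, (st hN θ s n).2.1 + 1,
            true) := by
          rw [stp, if_neg h1, if_pos h4, if_pos h5]
        have h3 : sq hN θ s n = fd hN n (st hN θ s n).1 := by rw [sq, h2]
        rw [h3, h2]
        exact ⟨h1', h4, by rw [h5]; exact (bd_ne hN n _).symm, fd_spec hN n _, rfl, rfl⟩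
      · right; right; left
        have h2 : stp hN θ s n (st hN θ s n) = (bd hN n (st hN θ s n).1, (st hN θ s n).2.1 + 1,
            false) := by
          rw [stp, if_neg h1, if_pos h4, if_neg h5]
        have h3 : sq hN θ s n = bd hN n (st hN θ s n).1 := by rw [sq, h2]
        rw [h3, h2]
        exact ⟨h1', h4, Ne.symm h5, bd_spec hN n _, rfl, rfl⟩
    · left
      have h2 : stp hN θ s n (st hN θ s n) = (fd hN n (st hN θ s n).1, (st hN θ s n).2.1,
          false) := by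
        rw [stp, if_neg h1, if_neg h4]
      have h3 : sq hN θ s n = fd hN n (st hN θ s n).1 := by rw [sq, h2]
      rw [h3, h2]
      exact ⟨h1', not_le.1 h4, fd_spec hN n _, rfl, rfl⟩

end construction

/-- the threshold -/
noncomputable def th (B : ℝ) (n : ℕ) : ℝ := B * n + Real.sqrt n

theorem th_eq (B : ℝ) (n : ℕ) : th B n = B * n + Real.sqrt n := rfl

theorem th_mono {B : ℝ} (hB : 0 ≤ B) (n : ℕ) : th B n ≤ th B (n + 1) := by
  unfold th
  have h1 : Real.sqrt (n : ℝ) ≤ Real.sqrt ((n + 1 : ℕ) : ℝ) := by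
    apply Real.sqrt_le_sqrt
    exact_mod_cast Nat.le_succ n
  push_cast at h1 ⊢
  nlinarith

theorem th_large {B : ℝ} (hB : 0 ≤ B) (C : ℝ) : ∃ m : ℕ, ∀ n, m ≤ n → C < th B n := by
  obtain ⟨m, hm⟩ := exists_nat_gt (C ^ 2)
  refine ⟨m, fun n hn => ?_⟩
  have h1 : (m : ℝ) ≤ n := by exact_mod_cast hn
  have h2 : C < Real.sqrt n := by
    rcases lt_or_ge C 0 with h | h
    · exact h.trans_le (Real.sqrt_nonneg _)
    · exact (Real.lt_sqrt h).2 (by linarith)
  unfold th
  have : 0 ≤ B * (n : ℝ) := by positivity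
  linarith

theorem sqrt_small (ε : ℝ) (hε : 0 < ε) : ∃ m : ℕ, ∀ n, m ≤ n → Real.sqrt n + 3 ≤ ε / 2 * n := by
  obtain ⟨m, hm⟩ := exists_nat_gt ((4 / ε) ^ 2 + 12 / ε)
  refine ⟨m, fun n hn => ?_⟩
  have h1 : (m : ℝ) ≤ n := by exact_mod_cast hn
  have h2 : 0 < 4 / ε := by positivity
  have h12 : 0 < 12 / ε := by positivity
  have h3 : 4 / ε ≤ Real.sqrt n := Real.le_sqrt_of_sq_le (by linarith)
  have h4 : Real.sqrt n * Real.sqrt n = n := Real.mul_self_sqrt (Nat.cast_nonneg n)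
  have h5 : Real.sqrt n ≤ ε / 4 * n := by
    have h6 : 1 ≤ ε / 4 * Real.sqrt n := by
      have : ε / 4 * (4 / ε) = 1 := by field_simp
      rw [← this]
      exact mul_le_mul_of_nonneg_left h3 (by positivity)
    calc Real.sqrt n = 1 * Real.sqrt n := (one_mul _).symm
      _ ≤ (ε / 4 * Real.sqrt n) * Real.sqrt n := mul_le_mul_of_nonneg_right h6 (Real.sqrt_nonneg _)
      _ = ε / 4 * n := by rw [mul_assoc, h4]
  have h7 : 3 ≤ ε / 4 * n := by
    have h8 : 12 / ε ≤ n := by nlinarith [sq_nonneg (4 / ε)]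
    rw [div_le_iff₀ hε] at h8
    linarith
  linarith

section construction2

variable {N : ℕ} (hN : 2 ≤ N) {B : ℝ} (hB0 : 0 ≤ B) (hB1 : B ≤ 1 / 2) (s : ℕ → ℕ → Fin N)

include hB0 in
theorem flag (n : ℕ) (h : (st hN (th B) s n).2.2 = true) :
    LL N (sq hN (th B) s) n ≤ th B n := by
  rcases n with _ | n
  · simp [st] at h
  · rcases stCases hN (th B) s n with hc | hc | hc | hc
    · rw [hc.2.2.2.2] at h; simp at h
    · rw [hc.2.2.2.1]
      exact hc.2.1.trans (th_mono hB0 n)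
    · rw [hc.2.2.2.2.2] at h; simp at h
    · rw [hc.2.2.2] at h; simp at h

include hB0 in
/-- eligible positions occur after every position -/
theorem elig (m : ℕ) : ∃ n, m ≤ n ∧ (st hN (th B) s n).2.2 = false ∧
    LL N (sq hN (th B) s) n ≤ th B n ∧ (st hN (th B) s n).2.1 = (st hN (th B) s m).2.1 := by
  have key : ∀ m, (st hN (th B) s m).2.2 = false → ∃ n, m ≤ n ∧ (st hN (th B) s n).2.2 = false ∧
      LL N (sq hN (th B) s) n ≤ th B n ∧ (st hN (th B) s n).2.1 = (st hN (th B) s m).2.1 := by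
    intro m hm
    by_contra hc
    push Not at hc
    have hall : ∀ n, m ≤ n → (st hN (th B) s n).2.2 = false ∧
        (st hN (th B) s n).2.1 = (st hN (th B) s m).2.1 ∧
        LL N (sq hN (th B) s) n = LL N (sq hN (th B) s) m := by
      intro n hn
      induction n, hn using Nat.le_induction with
      | base => exact ⟨hm, rfl, rfl⟩
      | succ n hn ih =>
        rcases stCases hN (th B) s n with h | h | h | h
        · exact ⟨h.2.2.2.2, by rw [h.2.2.2.1, ih.2.1], by rw [h.2.2.1, ih.2.2]⟩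
        · exact absurd ih.2.1 (hc n hn h.1 h.2.1)
        · exact absurd ih.2.1 (hc n hn h.1 h.2.1)
        · rw [ih.1] at h; simp at h
    obtain ⟨K, hK⟩ := th_large hB0 (LL N (sq hN (th B) s) m)
    have h1 := hall (m + K) (by omega)
    have h2 := hK (m + K) (by omega)
    exact hc (m + K) (by omega) h1.1 (by rw [h1.2.2]; exact h2.le) h1.2.1
  by_cases h : (st hN (th B) s m).2.2 = false
  · exact key m h
  · have h' : (st hN (th B) s m).2.2 = true := by simpa using h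
    rcases stCases hN (th B) s m with hc | hc | hc | hc
    · exact absurd hc.1 h
    · exact absurd hc.1 h
    · exact absurd hc.1 h
    · obtain ⟨n, h1, h2, h3, h4⟩ := key (m + 1) hc.2.2.2
      exact ⟨n, by omega, h2, h3, by rw [h4, hc.2.2.1]⟩

include hB0 in
theorem elig_count (t : ℕ) : ∃ n, (st hN (th B) s n).2.2 = false ∧
    LL N (sq hN (th B) s) n ≤ th B n ∧ (st hN (th B) s n).2.1 = t := by
  induction t with
  | zero =>
    obtain ⟨n, -, h2, h3, h4⟩ := elig hN hB0 s 0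
    exact ⟨n, h2, h3, by rw [h4]; rfl⟩
  | succ t ih =>
    obtain ⟨n, h1, h2, h3⟩ := ih
    have h4 : (st hN (th B) s (n + 1)).2.1 = t + 1 := by
      rcases stCases hN (th B) s n with h | h | h | h
      · exact absurd h2 (not_le.2 h.2.1)
      · rw [h.2.2.2.2.1, h3]
      · rw [h.2.2.2.2.1, h3]
      · rw [h.1] at h1; simp at h1
    obtain ⟨n', -, h5, h6, h7⟩ := elig hN hB0 s (n + 1)
    exact ⟨n', h5, h6, by rw [h7, h4]⟩

include hB0 in
theorem sq_ne (t : ℕ) : sq hN (th B) s ≠ s t := by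
  obtain ⟨n, h1, h2, h3⟩ := elig_count hN hB0 s t
  intro he
  have h4 : sq hN (th B) s n = s (st hN (th B) s n).2.1 n := by rw [he, h3]
  rcases stCases hN (th B) s n with h | h | h | h
  · exact absurd h2 (not_le.2 h.2.1)
  · exact h.2.2.1 h4
  · exact h.2.2.1 h4
  · rw [h.1] at h1; simp at h1

include hB0 hB1 in
/-- the lower bound -/
theorem lower_inv (n : ℕ) : B * n - Real.sqrt n - 3 ≤ LL N (sq hN (th B) s) n ∧
    ((st hN (th B) s n).2.2 = false → B * n - Real.sqrt n - 2 ≤ LL N (sq hN (th B) s) n) := by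
  induction n with
  | zero =>
    have := Lf_nonneg hN 0 (prefixValue N (sq hN (th B) s) 0)
    have h2 : (0 : ℝ) ≤ LL N (sq hN (th B) s) 0 := this
    simp only [Nat.cast_zero, mul_zero, Real.sqrt_zero]
    exact ⟨by linarith, fun _ => by linarith⟩
  | succ n ih =>
    have hs : Real.sqrt (n : ℝ) ≤ Real.sqrt ((n + 1 : ℕ) : ℝ) := by
      apply Real.sqrt_le_sqrt
      exact_mod_cast Nat.le_succ n
    have hs0 := Real.sqrt_nonneg (n : ℝ)
    have hn0 : (0 : ℝ) ≤ n := Nat.cast_nonneg n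
    have brk : (n : ℝ) - 1 ≤ LL N (sq hN (th B) s) n + LL N (sq hN (th B) s) (n + 1) →
        LL N (sq hN (th B) s) n ≤ th B n →
        B * ((n + 1 : ℕ) : ℝ) - Real.sqrt ((n + 1 : ℕ) : ℝ) - 2 ≤ LL N (sq hN (th B) s) (n + 1) := by
      intro h1 h2
      rw [th_eq] at h2
      push_cast at hs ⊢
      nlinarith
    rcases stCases hN (th B) s n with h | h | h | h
    · have h1 := h.2.1
      rw [h.2.2.1]
      rw [th_eq] at h1
      push_cast at hs ⊢
      exact ⟨by nlinarith, fun _ => by nlinarith⟩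
    · rw [h.2.2.2.1, h.2.2.2.2.2]
      have h1 := ih.2 h.1
      push_cast at hs ⊢
      exact ⟨by nlinarith, fun h => by simp at h⟩
    · have := brk h.2.2.2.1 h.2.1
      exact ⟨by linarith, fun _ => this⟩
    · have := brk h.2.1 (flag hN hB0 s n h.1)
      exact ⟨by linarith, fun _ => this⟩

include hB0 hB1 in
theorem low_sq : Low (LL N (sq hN (th B) s)) B := by
  refine ⟨fun ε hε => ?_, fun ε hε M => ?_⟩
  · obtain ⟨m, hm⟩ := sqrt_small ε hε
    refine ⟨m, fun n hn h1 => ?_⟩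
    have hn0 : (0 : ℝ) < n := by exact_mod_cast h1
    rw [le_div_iff₀ hn0]
    have h2 := hm n hn
    have h3 := (lower_inv hN hB0 hB1 s n).1
    nlinarith
  · obtain ⟨m, hm⟩ := sqrt_small ε hε
    obtain ⟨n, h1, -, h3, -⟩ := elig hN hB0 s (M + m + 1)
    refine ⟨n, by omega, by omega, ?_⟩
    have hn0 : (0 : ℝ) < n := by exact_mod_cast (by omega : 0 < n)
    rw [div_lt_iff₀ hn0]
    have h2 := hm n (by omega)
    rw [th_eq] at h3
    nlinarith

include hB0 hB1 in
theorem not_per_sq : ¬ EventuallyPeriodic (sq hN (th B) s) := by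
  intro hp
  obtain ⟨C, hC⟩ := bounded_of hN hp
  obtain ⟨m, hm⟩ := sqrt_small (1 / 2) (by norm_num)
  obtain ⟨K, hK⟩ := exists_nat_gt (4 * |C|)
  obtain ⟨n, h1, h2, h3, -⟩ := elig hN hB0 s (K + m + 1)
  have fin : ∀ n : ℕ, K + m + 1 ≤ n → LL N (sq hN (th B) s) n ≤ th B n →
      ¬ ((n : ℝ) - 1 ≤ LL N (sq hN (th B) s) n + LL N (sq hN (th B) s) (n + 1)) := by
    intro n hn h4 h5
    have h6 := hC (n + 1)
    have h7 := hm n (by omega)
    rw [th_eq] at h4
    have h8 : (K : ℝ) ≤ n := by exact_mod_cast (by omega : K ≤ n)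
    have h9 := le_abs_self C
    have hn0 : (0 : ℝ) ≤ n := Nat.cast_nonneg n
    nlinarith
  rcases stCases hN (th B) s n with h | h | h | h
  · exact absurd h3 (not_le.2 h.2.1)
  · have h4 := flag hN hB0 s (n + 1) h.2.2.2.2.2
    rcases stCases hN (th B) s (n + 1) with h' | h' | h' | h'
    · rw [h.2.2.2.2.2] at h'; simp at h'
    · rw [h.2.2.2.2.2] at h'; simp at h'
    · rw [h.2.2.2.2.2] at h'; simp at h'
    · exact fin (n + 1) (by omega) h4 h'.2.1
  · exact fin n h1 h3 h.2.2.2.1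
  · rw [h.1] at h2; simp at h2

end construction2

/-- Assertion (b) for prime powers. -/
theorem assertionB {N : ℕ} (hN : IsPrimePow N) : AssertionB N := by
  intro B hB0 hB1 hc
  have hN2 := hN.two_le
  have : Nonempty (ℕ → Fin N) := ⟨fun _ => ⟨0, by omega⟩⟩
  obtain ⟨s, hs⟩ := Set.countable_iff_exists_subset_range.1 hc
  have h1 : sq hN2 (th B) s ∈ {a : ℕ → Fin N | accPoints N a = Set.Icc B (1 - B)} := by
    show accPoints N _ = _
    rw [accPoints_eq_Acc hN2, acc_eq (prp hN (not_per_sq hN2 hB0 hB1 s)) (low_sq hN2 hB0 hB1 s)]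
  obtain ⟨t, ht⟩ := hs h1
  exact sq_ne hN2 hB0 s t ht.symm

end Pool.Agent.W907.NAdic
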